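import Mathlib

/-!
# Evaluating the independence polynomial (and its derivative) of an explicit graph
-/

set_option autoImplicit false

namespace Pool.Agent.Helper396_Occ

/-- recursion for the pair `(∑ 2^|I|, ∑ |I| 2^|I|)` over independent sets contained in a list -/
def zb {α : Type*} (adj : α → α → Bool) : ℕ → List α → ℕ × ℕ
  | _, [] => (1, 0)
  | 0, _ :: _ => (0, 0)
  | f + 1, v :: l =>
    let p := zb adj f l
    let q := zb adj f (l.filter fun w => !adj v w)
    (p.1 + 2 * q.1, p.2 + 2 * q.2 + 2 * q.1)

section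

variable {V : Type} [DecidableEq V] (G : SimpleGraph V)

/-- a sum over the independent subsets of `S` -/
noncomputable def indSum (g : ℕ → ℕ) (S : Finset V) : ℕ :=
  open Classical in ∑ I ∈ S.powerset, if G.IsIndepSet (I : Set V) then g I.card else 0

lemma indSum_empty (g : ℕ → ℕ) : indSum G g ∅ = g 0 := by
  classical
  unfold indSum
  rw [Finset.powerset_empty, Finset.sum_singleton, if_pos (by simp), Finset.card_empty]

lemma indep_insert {v : V} {t : Finset V} (hv : v ∉ t) :
    G.IsIndepSet ((insert v t : Finset V) : Set V) ↔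
      G.IsIndepSet (t : Set V) ∧ ∀ w ∈ t, ¬ G.Adj v w := by
  rw [SimpleGraph.isIndepSet_iff, SimpleGraph.isIndepSet_iff, Finset.coe_insert,
    Set.pairwise_insert_of_notMem (by simpa using hv)]
  constructor
  · rintro ⟨h1, h2⟩
    exact ⟨h1, fun w hw => (h2 w hw).1⟩
  · rintro ⟨h1, h2⟩
    exact ⟨h1, fun w hw => ⟨h2 w hw, fun h => h2 w hw h.symm⟩⟩

lemma indSum_insert (g : ℕ → ℕ) {v : V} {S : Finset V} (hv : v ∉ S) (S' : Finset V)
    (hS' : ∀ w, w ∈ S' ↔ w ∈ S ∧ ¬ G.Adj v w) :
    indSum G g (insert v S) = indSum G g S + indSum G (fun k => g (k + 1)) S' := by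
  classical
  unfold indSum
  rw [Finset.sum_powerset_insert hv]
  congr 1
  have h1 : S'.powerset ⊆ S.powerset := Finset.powerset_mono.2 fun w hw => ((hS' w).1 hw).1
  rw [← Finset.sum_subset h1]
  · refine Finset.sum_congr rfl fun t ht => ?_
    rw [Finset.mem_powerset] at ht
    have hvt : v ∉ t := fun h => hv ((hS' v).1 (ht h)).1
    rw [Finset.card_insert_of_notMem hvt]
    by_cases h : G.IsIndepSet (t : Set V)
    · rw [if_pos h, if_pos ((indep_insert G hvt).2 ⟨h, fun w hw => ((hS' w).1 (ht hw)).2⟩)]
    · rw [if_neg h, if_neg (fun h2 => h ((indep_insert G hvt).1 h2).1)]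
  · intro t ht ht'
    rw [Finset.mem_powerset] at ht ht'
    have hvt : v ∉ t := fun h => hv (ht h)
    rw [if_neg]
    intro h2
    apply ht'
    intro w hw
    exact (hS' w).2 ⟨ht hw, ((indep_insert G hvt).1 h2).2 w hw⟩

/-- the recursion computes the sums -/
lemma zb_eq (adj : V → V → Bool) (hadj : ∀ a b, adj a b = true ↔ G.Adj a b) :
    ∀ (f : ℕ) (l : List V), l.Nodup → l.length ≤ f →
      indSum G (fun k => 2 ^ k) l.toFinset = (zb adj f l).1 ∧
        indSum G (fun k => k * 2 ^ k) l.toFinset = (zb adj f l).2 := by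
  intro f
  induction f with
  | zero =>
    intro l _ h2
    obtain rfl : l = [] := List.eq_nil_of_length_eq_zero (by omega)
    simp only [List.toFinset_nil, zb]
    exact ⟨by rw [indSum_empty]; rfl, by rw [indSum_empty]; rfl⟩
  | succ f ih =>
    intro l h1 h2
    rcases l with _ | ⟨v, l⟩
    · simp only [List.toFinset_nil, zb]
      exact ⟨by rw [indSum_empty]; rfl, by rw [indSum_empty]; rfl⟩
    · rw [List.nodup_cons] at h1
      rw [List.length_cons] at h2
      obtain ⟨a1, a2⟩ := ih l h1.2 (by omega)
      obtain ⟨b1, b2⟩ := ih (l.filter fun w => !adj v w) (h1.2.filter _)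
        ((List.length_filter_le _ _).trans (by omega))
      have hS' : ∀ w, w ∈ (l.filter fun w => !adj v w).toFinset ↔
          w ∈ l.toFinset ∧ ¬ G.Adj v w := by
        intro w
        rw [List.mem_toFinset, List.mem_filter, List.mem_toFinset, ← hadj]
        simp
      have hv : v ∉ l.toFinset := by rw [List.mem_toFinset]; exact h1.1
      have c1 : indSum G (fun k => 2 ^ (k + 1)) (l.filter fun w => !adj v w).toFinset =
          2 * indSum G (fun k => 2 ^ k) (l.filter fun w => !adj v w).toFinset := by
        classical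
        unfold indSum
        rw [Finset.mul_sum]
        refine Finset.sum_congr rfl fun t _ => ?_
        split_ifs
        · ring
        · rfl
      have c2 : indSum G (fun k => (k + 1) * 2 ^ (k + 1)) (l.filter fun w => !adj v w).toFinset =
          2 * indSum G (fun k => k * 2 ^ k) (l.filter fun w => !adj v w).toFinset +
          2 * indSum G (fun k => 2 ^ k) (l.filter fun w => !adj v w).toFinset := by
        classical
        unfold indSum
        rw [Finset.mul_sum, Finset.mul_sum, ← Finset.sum_add_distrib]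
        refine Finset.sum_congr rfl fun t _ => ?_
        split_ifs
        · ring
        · rfl
      rw [List.toFinset_cons, indSum_insert G _ hv _ hS', indSum_insert G _ hv _ hS', c1, c2, a1,
        a2, b1, b2]
      simp only [zb]
      exact ⟨trivial, by ring⟩

end

/-- the two sums of the hard-core model at fugacity two -/
lemma sums_eq {V : Type} [Fintype V] [DecidableEq V] (G : SimpleGraph V)
    [inst : ∀ I : Finset V, Decidable (G.IsIndepSet (I : Set V))] (adj : V → V → Bool)
    (hadj : ∀ a b, adj a b = true ↔ G.Adj a b) (l : List V) (h1 : l.Nodup) (h2 : ∀ v, v ∈ l)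
    (Z B : ℕ) (h : zb adj l.length l = (Z, B)) :
    (∑ I : Finset V, if G.IsIndepSet (I : Set V) then (I.card : ℝ) * 2 ^ I.card else 0) = B ∧
      (∑ I : Finset V, if G.IsIndepSet (I : Set V) then (2 : ℝ) ^ I.card else 0) = Z := by
  have h3 : l.toFinset = Finset.univ := by
    ext v
    simp [h2 v]
  obtain ⟨a1, a2⟩ := zb_eq G adj hadj l.length l h1 le_rfl
  rw [h, h3] at a1 a2
  unfold indSum at a1 a2
  rw [Finset.powerset_univ] at a1 a2
  simp only at a1 a2
  constructor
  · rw [← a2]
    push_cast
    refine Finset.sum_congr rfl fun I _ => ?_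
    split_ifs <;> rfl
  · rw [← a1]
    push_cast
    refine Finset.sum_congr rfl fun I _ => ?_
    split_ifs <;> rfl

/-- the occupancy fraction at fugacity two -/
lemma ratio_eq {V : Type} [Fintype V] (G : SimpleGraph V)
    (inst inst' : ∀ I : Finset V, Decidable (G.IsIndepSet (I : Set V))) (adj : V → V → Bool)
    (hadj : ∀ a b, adj a b = true ↔ G.Adj a b) (l : List V) (h1 : l.Nodup) (h2 : ∀ v, v ∈ l)
    (Z B : ℕ) (h : zb adj l.length l = (Z, B)) :
    (∑ I : Finset V, @ite ℝ (G.IsIndepSet (I : Set V)) (inst I) ((I.card : ℝ) * 2 ^ I.card) 0) /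
      ((Fintype.card V : ℝ) *
        ∑ I : Finset V, @ite ℝ (G.IsIndepSet (I : Set V)) (inst' I) ((2 : ℝ) ^ I.card) 0) =
    (B : ℝ) / (Fintype.card V * Z) := by
  classical
  rw [(sums_eq (inst := inst) G adj hadj l h1 h2 Z B h).1,
    (sums_eq (inst := inst') G adj hadj l h1 h2 Z B h).2]

end Pool.Agent.Helper396_Occ
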